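import Pool.Agent.MP_d50107_co.H54.Shift

namespace Pool.Agent.MP_d50107_co.H54

open Finset Finset.Colex
open scoped FinsetFamily

variable {α : Type*} [LinearOrder α] (P : α → Prop) [DecidablePred P]

/-- the `k`-subsets of `X` with at least `t` points in `P` -/
def fam (X : Finset α) (k t : ℕ) : Finset (Finset α) :=
  (powersetCard k X).filter fun F => t ≤ (F.filter P).card

/-- `ℒ` is an initial segment of `𝒜` in the colexicographic order -/
def IsInit (𝒜 ℒ : Finset (Finset α)) : Prop :=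
  ℒ ⊆ 𝒜 ∧ ∀ F ∈ ℒ, ∀ G ∈ 𝒜, toColex G < toColex F → G ∈ ℒ

variable {P}

theorem mem_fam {X : Finset α} {k t : ℕ} {F : Finset α} :
    F ∈ fam P X k t ↔ F ⊆ X ∧ F.card = k ∧ t ≤ (F.filter P).card := by
  simp [fam, mem_powersetCard, and_assoc]

theorem card_filter_insert {y : α} {F : Finset α} (hy : y ∉ F) :
    ((insert y F).filter P).card = (F.filter P).card + if P y then 1 else 0 := by
  rw [filter_insert]
  split_ifs
  · rw [card_insert_of_notMem (by simp [hy])]
  · rfl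

theorem swap_mem_fam (hP : ∀ x y, x ≤ y → P y → P x) {X : Finset α} {k t : ℕ} {F : Finset α}
    {x y : α} (hF : F ∈ fam P X k t) (hx : x ∈ F) (hy : y ∉ F) (hyX : y ∈ X) (hyx : y ≤ x) :
    insert y (F.erase x) ∈ fam P X k t := by
  rw [mem_fam] at hF ⊢
  refine ⟨insert_subset hyX ((erase_subset _ _).trans hF.1), (card_swap hx hy).trans hF.2.1, ?_⟩
  have h1 := card_filter_insert (P := P) (y := y) (F := F.erase x) (by simp [hy])
  have h2 := card_filter_insert (P := P) (y := x) (F := F.erase x) (by simp)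
  rw [insert_erase hx] at h2
  have h3 := hF.2.2
  by_cases hx' : P x
  · rw [if_pos (hP _ _ hyx hx')] at h1
    rw [if_pos hx'] at h2
    omega
  · rw [if_neg hx'] at h2
    omega

theorem sh_subset_fam (hP : ∀ x y, x ≤ y → P y → P x) {X : Finset α} {k t : ℕ}
    {𝓕 : Finset (Finset α)} {x y : α} (h : 𝓕 ⊆ fam P X k t) (hyX : y ∈ X) (hyx : y < x) :
    sh y x 𝓕 ⊆ fam P X k t := by
  intro K hK
  rcases (mem_sh hyx.ne').1 hK with ⟨a1, -⟩ | ⟨-, a1, a2, a3⟩
  · exact h a1
  · have := swap_mem_fam hP (h a3) (mem_insert_self x _) (y := y) (by simp [hyx.ne]) hyX hyx.le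
    rwa [swap_swap hyx.ne a1 a2] at this

theorem nonMember_fam {X : Finset α} {k t : ℕ} {y : α} (hy : y ∉ X) {F : Finset α} :
    F ∈ fam P X k t ↔ F ∈ fam P (insert y X) k t ∧ y ∉ F := by
  simp only [mem_fam]
  constructor
  · rintro ⟨h1, h2, h3⟩
    exact ⟨⟨h1.trans (subset_insert _ _), h2, h3⟩, fun h => hy (h1 h)⟩
  · rintro ⟨⟨h1, h2, h3⟩, h4⟩
    exact ⟨(subset_insert_iff_of_notMem h4).1 h1, h2, h3⟩

theorem member_fam {X : Finset α} {k t : ℕ} {y : α} (hy : y ∉ X) {F : Finset α} :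
    F ∈ fam P X k (t - if P y then 1 else 0) ↔
      insert y F ∈ fam P (insert y X) (k + 1) t ∧ y ∉ F := by
  simp only [mem_fam]
  constructor
  · rintro ⟨h1, h2, h3⟩
    have h4 : y ∉ F := fun h => hy (h1 h)
    refine ⟨⟨insert_subset_insert _ h1, by rw [card_insert_of_notMem h4, h2], ?_⟩, h4⟩
    rw [card_filter_insert h4]
    omega
  · rintro ⟨⟨h1, h2, h3⟩, h4⟩
    rw [card_insert_of_notMem h4] at h2
    rw [card_filter_insert h4] at h3
    exact ⟨(subset_insert_iff_of_notMem h4).1 ((subset_insert _ _).trans h1), by omega, by omega⟩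

theorem colex_insert_lt {y : α} {S T : Finset α} (hT : y ∉ T) (h : toColex T < toColex S)
    (hS : y ∉ S) : toColex (insert y T) < toColex (insert y S) := by
  rw [toColex_lt_toColex_iff_exists_forall_lt] at h ⊢
  obtain ⟨a, h1, h2, h3⟩ := h
  refine ⟨a, mem_insert_of_mem h1, ?_, fun b hb hb' => ?_⟩
  · simp only [mem_insert, not_or]
    exact ⟨fun e => hS (e ▸ h1), h2⟩
  · simp only [mem_insert, not_or] at hb hb'
    exact h3 b (hb.resolve_left hb'.1) hb'.2

theorem colex_swap_lt {x y : α} {F : Finset α} (hx : x ∈ F) (hyx : y < x) :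
    toColex (insert y (F.erase x)) < toColex F := by
  rw [toColex_lt_toColex_iff_exists_forall_lt]
  refine ⟨x, hx, by simp [hyx.ne'], fun b hb hb' => ?_⟩
  simp only [mem_insert, mem_erase] at hb
  rcases hb with rfl | hb
  · exact hyx
  · exact (hb' hb.2).elim

theorem shadow_nonMember_subset {y : α} {𝓕 : Finset (Finset α)}
    (h : ∀ F ∈ 𝓕, y ∉ F → ∀ x ∈ F, insert y (F.erase x) ∈ 𝓕) :
    ∂ (nonMemberSubfamily y 𝓕) ⊆ memberSubfamily y 𝓕 := by
  intro T hT
  obtain ⟨F, hF, x, hx, rfl⟩ := mem_shadow_iff.1 hT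
  rw [mem_nonMemberSubfamily] at hF
  exact mem_memberSubfamily.2 ⟨h F hF.1 hF.2 x hx, by simp [hF.2]⟩

theorem card_shadow_of_shifted {y : α} {𝓕 : Finset (Finset α)}
    (h : ∀ F ∈ 𝓕, y ∉ F → ∀ x ∈ F, insert y (F.erase x) ∈ 𝓕) :
    (∂ 𝓕).card = (∂ (memberSubfamily y 𝓕)).card + (memberSubfamily y 𝓕).card := by
  rw [card_shadow_eq y, union_eq_right.2 (shadow_nonMember_subset h)]

/-- completing a set by the smallest missing point -/
theorem exists_insert_le (hP : ∀ x y, x ≤ y → P y → P x) {X : Finset α} {k t : ℕ} {y : α}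
    {T G : Finset α} (hyT : y ∉ T) (hT : insert y T ∈ fam P (insert y X) (k + 1) t)
    (hG : G ∈ fam P X (k + 1) t) (hlt : toColex (insert y T) < toColex G) :
    ∃ z, z ∉ T ∧ insert z T ∈ fam P X (k + 1) t ∧ toColex (insert z T) ≤ toColex G := by
  rw [mem_fam] at hT hG
  obtain ⟨hT1, hT2, hT3⟩ := hT
  obtain ⟨hG1, hG2, hG3⟩ := hG
  rw [card_insert_of_notMem hyT] at hT2
  rw [card_filter_insert hyT] at hT3
  have hTX : T ⊆ X := (subset_insert_iff_of_notMem hyT).1 ((subset_insert _ _).trans hT1)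
  obtain ⟨w, hwG, hwT, hw⟩ := toColex_lt_toColex_iff_exists_forall_lt.1 hlt
  have hwT' : w ∉ T := fun h => hwT (mem_insert_of_mem h)
  obtain ⟨z, hz, hzmin⟩ := exists_min_image (X \ T) id ⟨w, mem_sdiff.2 ⟨hG1 hwG, hwT'⟩⟩
  rw [mem_sdiff] at hz
  have hmin : ∀ v ∈ X, v ∉ T → z ≤ v := fun v h1 h2 => hzmin v (mem_sdiff.2 ⟨h1, h2⟩)
  refine ⟨z, hz.2, mem_fam.2 ⟨insert_subset hz.1 hTX, by rw [card_insert_of_notMem hz.2, hT2], ?_⟩,
    ?_⟩
  · rw [card_filter_insert hz.2]
    by_cases hPz : P z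
    · rw [if_pos hPz]
      split_ifs at hT3 <;> omega
    · have : G.filter P ⊆ T.filter P := by
        intro v hv
        rw [mem_filter] at hv ⊢
        refine ⟨?_, hv.2⟩
        by_contra hvT
        exact hPz (hP _ _ (hmin v (hG1 hv.1) hvT) hv.2)
      have := card_le_card this
      omega
  · intro b hb hbG
    simp only [ofColex_toColex, mem_insert] at hb hbG ⊢
    have hzw := hmin w (hG1 hwG) hwT'
    rcases hb with rfl | hb
    · refine ⟨w, hwG, ?_, hzw⟩
      rintro (rfl | h)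
      · exact hbG hwG
      · exact hwT' h
    · by_cases hwz : w = z
      · have hc : ¬ G ⊆ insert z T := by
          intro hs
          have := eq_of_subset_of_card_le hs (by rw [card_insert_of_notMem hz.2]; omega)
          exact hbG (this ▸ mem_insert_of_mem hb)
        obtain ⟨v, hvG, hv⟩ := not_subset.1 hc
        rw [mem_insert] at hv
        refine ⟨v, hvG, hv, ?_⟩
        have h1 := hw b (mem_insert_of_mem hb) hbG
        have h2 := hmin v (hG1 hvG) fun h => hv (Or.inr h)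
        rw [hwz] at h1
        exact h1.le.trans h2
      · refine ⟨w, hwG, ?_, (hw b (mem_insert_of_mem hb) hbG).le⟩
        rintro (h | h)
        · exact hwz h
        · exact hwT' h

/-- an initial segment that is not everything can be extended by one member -/
theorem IsInit.extend {𝒜 ℒ : Finset (Finset α)} (h : IsInit 𝒜 ℒ) (hc : ℒ.card < 𝒜.card) :
    ∃ G ∈ 𝒜, G ∉ ℒ ∧ IsInit 𝒜 (insert G ℒ) := by
  have hne : (𝒜 \ ℒ).Nonempty := sdiff_nonempty_of_card_lt_card hc
  obtain ⟨G, hG, hmin⟩ := exists_min_image (𝒜 \ ℒ) toColex hne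
  rw [mem_sdiff] at hG
  refine ⟨G, hG.1, hG.2, insert_subset hG.1 h.1, fun F hF H hH hlt => ?_⟩
  rcases mem_insert.1 hF with rfl | hF
  · by_contra hn
    exact absurd (hmin H (mem_sdiff.2 ⟨hH, fun h' => hn (mem_insert_of_mem h')⟩)) (not_le.2 hlt)
  · exact mem_insert_of_mem (h.2 F hF H hH hlt)

theorem exists_isInit (𝒜 : Finset (Finset α)) (m : ℕ) (hm : m ≤ 𝒜.card) :
    ∃ ℒ, IsInit 𝒜 ℒ ∧ ℒ.card = m := by
  induction m with
  | zero => exact ⟨∅, ⟨empty_subset _, by simp⟩, rfl⟩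
  | succ m ih =>
    obtain ⟨ℒ, h1, h2⟩ := ih (by omega)
    obtain ⟨G, -, h3, h4⟩ := h1.extend (by omega)
    exact ⟨_, h4, by rw [card_insert_of_notMem h3, h2]⟩

/-- the Kruskal-Katona theorem inside the family `fam P X k t` -/
theorem kk_fam (hP : ∀ x y, x ≤ y → P y → P x) (X : Finset α) : ∀ (k t : ℕ)
    (𝓕 ℒ : Finset (Finset α)), 𝓕 ⊆ fam P X k t → IsInit (fam P X k t) ℒ → ℒ.card ≤ 𝓕.card →
    (∂ ℒ).card ≤ (∂ 𝓕).card := by
  have zero : ∀ (X : Finset α) (t : ℕ) (𝓕 ℒ : Finset (Finset α)), IsInit (fam P X 0 t) ℒ →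
      (∂ ℒ).card ≤ (∂ 𝓕).card := by
    intro X t 𝓕 ℒ h
    have : ∂ ℒ = ∅ := by
      refine eq_empty_of_forall_notMem fun T hT => ?_
      obtain ⟨F, hF, x, hx, -⟩ := mem_shadow_iff.1 hT
      rw [card_eq_zero.1 (mem_fam.1 (h.1 hF)).2.1] at hx
      exact notMem_empty _ hx
    simp [this]
  induction X using Finset.induction_on_min with
  | empty =>
    intro k t 𝓕 ℒ _ h _
    have : ∂ ℒ = ∅ := by
      refine eq_empty_of_forall_notMem fun T hT => ?_
      obtain ⟨F, hF, x, hx, -⟩ := mem_shadow_iff.1 hT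
      exact notMem_empty _ ((mem_fam.1 (h.1 hF)).1 hx)
    simp [this]
  | insert y X hy ih =>
    intro k t 𝓕 ℒ h𝓕 hℒ hc
    rcases k with _ | k
    · exact zero _ _ _ _ hℒ
    have hyX : y ∉ X := fun h => lt_irrefl _ (hy y h)
    have hlt : ∀ F ∈ fam P (insert y X) (k + 1) t, y ∉ F → ∀ x ∈ F, y < x := fun F hF hyF x hx =>
      hy x ((mem_insert.1 ((mem_fam.1 hF).1 hx)).resolve_left fun e => hyF (e ▸ hx))
    induction hn : (𝓕.filter fun A => y ∉ A).card using Nat.strong_induction_on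
      generalizing 𝓕 with
    | _ n ihn =>
    by_cases hs : ∀ F ∈ 𝓕, y ∉ F → ∀ x ∈ F, insert y (F.erase x) ∈ 𝓕
    swap
    · push Not at hs
      obtain ⟨F, hF, hyF, x, hx, hn'⟩ := hs
      have hyx := hlt F (h𝓕 hF) hyF x hx
      refine le_trans (ihn _ ?_ (sh y x 𝓕) (by rwa [card_sh])
        (sh_subset_fam hP h𝓕 (mem_insert_self _ _) hyx) rfl) (card_shadow_sh_le _ _ _)
      rw [← hn]
      exact card_filter_notMem_sh_lt hyx.ne' hF hx hyF hn'
    have hsℒ : ∀ F ∈ ℒ, y ∉ F → ∀ x ∈ F, insert y (F.erase x) ∈ ℒ := fun F hF hyF x hx =>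
      hℒ.2 F hF _ (swap_mem_fam hP (hℒ.1 hF) hx hyF (mem_insert_self _ _)
        (hlt F (hℒ.1 hF) hyF x hx).le) (colex_swap_lt hx (hlt F (hℒ.1 hF) hyF x hx))
    have F0 : nonMemberSubfamily y 𝓕 ⊆ fam P X (k + 1) t := fun F hF => by
      rw [mem_nonMemberSubfamily] at hF
      exact (nonMember_fam hyX).2 ⟨h𝓕 hF.1, hF.2⟩
    have F1 : memberSubfamily y 𝓕 ⊆ fam P X k (t - if P y then 1 else 0) := fun F hF => by
      rw [mem_memberSubfamily] at hF
      exact (member_fam hyX).2 ⟨h𝓕 hF.1, hF.2⟩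
    have L0 : IsInit (fam P X (k + 1) t) (nonMemberSubfamily y ℒ) := by
      refine ⟨fun F hF => ?_, fun F hF G hG hlt' => ?_⟩
      · rw [mem_nonMemberSubfamily] at hF
        exact (nonMember_fam hyX).2 ⟨hℒ.1 hF.1, hF.2⟩
      · rw [mem_nonMemberSubfamily] at hF ⊢
        rw [nonMember_fam hyX] at hG
        exact ⟨hℒ.2 F hF.1 G hG.1 hlt', hG.2⟩
    have L1 : IsInit (fam P X k (t - if P y then 1 else 0)) (memberSubfamily y ℒ) := by
      refine ⟨fun F hF => ?_, fun F hF G hG hlt' => ?_⟩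
      · rw [mem_memberSubfamily] at hF
        exact (member_fam hyX).2 ⟨hℒ.1 hF.1, hF.2⟩
      · rw [mem_memberSubfamily] at hF ⊢
        rw [member_fam hyX] at hG
        exact ⟨hℒ.2 _ hF.1 _ hG.1 (colex_insert_lt hG.2 hlt' hF.2), hG.2⟩
    have c1 := card_memberSubfamily_add_card_nonMemberSubfamily y 𝓕
    have c2 := card_memberSubfamily_add_card_nonMemberSubfamily y ℒ
    rw [card_shadow_of_shifted hs, card_shadow_of_shifted hsℒ]
    by_cases hle : (memberSubfamily y ℒ).card ≤ (memberSubfamily y 𝓕).card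
    · exact add_le_add (ih _ _ _ _ F1 L1 hle) hle
    exfalso
    obtain ⟨G, hG, hGℒ, hinit⟩ := L0.extend (by have := card_le_card F0; omega)
    have h1 := ih _ _ _ _ F0 hinit (by rw [card_insert_of_notMem hGℒ]; omega)
    have h2 := card_le_card (shadow_nonMember_subset hs)
    have hG' := (nonMember_fam hyX).1 hG
    have hGL : G ∉ ℒ := fun h => hGℒ (mem_nonMemberSubfamily.2 ⟨h, hG'.2⟩)
    have h3 : memberSubfamily y ℒ ⊆ ∂ (insert G (nonMemberSubfamily y ℒ)) := by
      intro T hT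
      rw [mem_memberSubfamily] at hT
      have hlt' : toColex (insert y T) < toColex G := by
        rcases lt_trichotomy (toColex (insert y T)) (toColex G) with h | h | h
        · exact h
        · exact (hGL (toColex_inj.1 h ▸ hT.1)).elim
        · exact (hGL (hℒ.2 _ hT.1 _ hG'.1 h)).elim
      obtain ⟨z, hz1, hz2, hz3⟩ := exists_insert_le hP hT.2 (hℒ.1 hT.1) hG hlt'
      refine mem_shadow_iff_insert_mem.2 ⟨z, hz1, ?_⟩
      rcases hz3.eq_or_lt with h | h
      · rw [toColex_inj.1 h]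
        exact mem_insert_self _ _
      · exact hinit.2 G (mem_insert_self _ _) _ hz2 h
    have := card_le_card h3
    omega

end Pool.Agent.MP_d50107_co.H54
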