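import Pool.Agent.MP_d50107_co.H54.Shift

namespace Pool.Agent.MP_d50107_co.H54

open Finset
open scoped FinsetFamily

variable {α : Type*} [DecidableEq α]

/-- connectivity of the Johnson graph -/
theorem johnson {W : Finset α} {b : ℕ} {𝒬 : Finset (Finset α)} (h : 𝒬 ⊆ powersetCard b W)
    (hne : 𝒬.Nonempty)
    (hcl : ∀ T ∈ 𝒬, ∀ x ∈ T, ∀ y ∈ W, y ∉ T → insert y (T.erase x) ∈ 𝒬) :
    𝒬 = powersetCard b W := by
  refine Subset.antisymm h fun Q hQ => ?_
  obtain ⟨T, hT⟩ := hne
  rw [mem_powersetCard] at hQ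
  induction hn : (T \ Q).card generalizing T with
  | zero =>
    have h1 : T ⊆ Q := sdiff_eq_empty_iff_subset.1 (card_eq_zero.1 hn)
    have h2 := (mem_powersetCard.1 (h hT)).2
    rwa [← eq_of_subset_of_card_le h1 (by omega)]
  | succ n ih =>
    obtain ⟨x, hx⟩ : (T \ Q).Nonempty := card_pos.1 (by omega)
    have h2 := (mem_powersetCard.1 (h hT)).2
    have hQT : ¬ Q ⊆ T := fun hs => by
      have := eq_of_subset_of_card_le hs (by omega)
      subst this
      simp at hx
    obtain ⟨y, hyQ, hyT⟩ := not_subset.1 hQT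
    refine ih _ (hcl T hT x (mem_sdiff.1 hx).1 y (hQ.1 hyQ) hyT) ?_
    have : insert y (T.erase x) \ Q = (T \ Q).erase x := by
      rw [insert_sdiff_of_mem _ hyQ, erase_sdiff_comm]
    rw [this, card_erase_of_mem hx, hn]
    rfl

/-- the case of a small ground set -/
theorem katona_base {X : Finset α} {a : ℕ} {𝒦 : Finset (Finset α)} (h : 𝒦 ⊆ powersetCard a X)
    (hX : X.card < 2 * a) (hne : 𝒦.Nonempty) (hle : (∂ 𝒦).card ≤ 𝒦.card) :
    X.card + 1 = 2 * a ∧ 𝒦 = powersetCard a X := by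
  let N : Finset α → Finset α := fun T => (X \ T).filter fun z => insert z T ∈ 𝒦
  have h1 : (𝒦.sigma fun K => K).card ≤ ((∂ 𝒦).sigma N).card := by
    refine card_le_card_of_injOn (fun p => ⟨p.1.erase p.2, p.2⟩) ?_ ?_
    · rintro ⟨K, x⟩ hp
      simp only [coe_sigma, Set.mem_sigma_iff, mem_coe] at hp ⊢
      refine ⟨erase_mem_shadow hp.1 hp.2, mem_filter.2 ⟨mem_sdiff.2
        ⟨(mem_powersetCard.1 (h hp.1)).1 hp.2, by simp⟩, ?_⟩⟩
      rw [insert_erase hp.2]
      exact hp.1
    · rintro ⟨K, x⟩ hp ⟨K', x'⟩ hp' e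
      simp only [coe_sigma, Set.mem_sigma_iff, mem_coe] at hp hp'
      simp only [Sigma.mk.injEq, heq_eq_eq] at e ⊢
      obtain ⟨e1, rfl⟩ := e
      exact ⟨by rw [← insert_erase hp.2, e1, insert_erase hp'.2], rfl⟩
  rw [card_sigma, card_sigma, sum_congr rfl fun K hK => (mem_powersetCard.1 (h hK)).2, sum_const,
    smul_eq_mul] at h1
  have h2 : ∀ T ∈ ∂ 𝒦, (X \ T).card + a = X.card + 1 := by
    intro T hT
    obtain ⟨K, hK, x, hx, rfl⟩ := mem_shadow_iff.1 hT
    have hK' := mem_powersetCard.1 (h hK)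
    have := card_sdiff_add_card_eq_card ((erase_subset x K).trans hK'.1)
    have := card_erase_add_one hx
    omega
  have h3 : ∀ T ∈ ∂ 𝒦, (N T).card ≤ (X \ T).card := fun T _ => card_filter_le _ _
  have h4 : ∀ T ∈ ∂ 𝒦, a ≤ (N T).card := by
    by_contra hc
    push Not at hc
    have : ∑ T ∈ ∂ 𝒦, (N T).card < ∑ T ∈ ∂ 𝒦, a :=
      sum_lt_sum (fun T hT => by have := h2 T hT; have := h3 T hT; omega) hc
    rw [sum_const, smul_eq_mul] at this
    have := Nat.mul_le_mul_right a hle
    omega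
  obtain ⟨K, hK⟩ := hne
  have hK' := mem_powersetCard.1 (h hK)
  obtain ⟨x, hx⟩ : K.Nonempty := card_pos.1 (by omega)
  refine ⟨?_, johnson h ⟨K, hK⟩ fun T hT x hx y hy hyT => ?_⟩
  · have hT := erase_mem_shadow hK hx
    have := h2 _ hT
    have := h3 _ hT
    have := h4 _ hT
    omega
  · have hT := erase_mem_shadow hT hx
    have e : N (T.erase x) = X \ T.erase x := by
      refine eq_of_subset_of_card_le (filter_subset _ _) ?_
      have := h2 _ hT
      have := h4 _ hT
      omega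
    have : y ∈ N (T.erase x) := by
      rw [e]
      exact mem_sdiff.2 ⟨hy, fun h => hyT (mem_of_mem_erase h)⟩
    exact (mem_filter.1 this).2

theorem shadow_sh_subset (y x : α) (𝒜 : Finset (Finset α)) : ∂ (sh y x 𝒜) ⊆ sh y x (∂ 𝒜) :=
  UV.shadow_compression_subset_compression_shadow _ _ fun z hz => ⟨x, mem_singleton_self x, by
    rw [mem_singleton.1 hz, erase_singleton, erase_singleton]
    exact UV.isCompressed_self _ _⟩

theorem powersetCard_subset_shadow {W : Finset α} {b : ℕ} (hb : b < W.card) :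
    powersetCard b W ⊆ ∂ (powersetCard (b + 1) W) := by
  intro T hT
  rw [mem_powersetCard] at hT
  obtain ⟨z, hz⟩ := sdiff_nonempty_of_card_lt_card (s := T) (t := W) (by omega)
  rw [mem_sdiff] at hz
  exact mem_shadow_iff_insert_mem.2 ⟨z, hz.2, mem_powersetCard.2
    ⟨insert_subset hz.1 hT.1, by rw [card_insert_of_notMem hz.2, hT.2]⟩⟩

/-- undoing a shift whose result is complete -/
theorem unshift {y x : α} (hxy : x ≠ y) {W : Finset α} {a : ℕ} {𝒦 : Finset (Finset α)}
    (hW : W.card + 1 = 2 * a) (h : sh y x 𝒦 = powersetCard a W) (hle : (∂ 𝒦).card ≤ 𝒦.card) :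
    ∃ W' : Finset α, W'.card + 1 = 2 * a ∧ 𝒦 = powersetCard a W' := by
  have hc : 𝒦.card = W.card.choose a := by rw [← card_sh y x, h, card_powersetCard]
  have fin : ∀ W' : Finset α, W'.card = W.card → powersetCard a W' ⊆ 𝒦 →
      ∃ W' : Finset α, W'.card + 1 = 2 * a ∧ 𝒦 = powersetCard a W' := fun W' h1 h2 =>
    ⟨W', by omega, (eq_of_subset_of_card_le h2 (by rw [card_powersetCard, hc, h1])).symm⟩
  have noy : ∀ K ∈ powersetCard a W, y ∉ K → K ∈ 𝒦 := by
    intro K hK hy
    rw [← h] at hK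
    rcases (mem_sh hxy).1 hK with ⟨a1, -⟩ | ⟨-, a1, -⟩
    · exact a1
    · exact (hy a1).elim
  by_cases hy : y ∈ W
  swap
  · exact fin W rfl fun K hK => noy K hK fun h' => hy ((mem_powersetCard.1 hK).1 h')
  by_cases hx : x ∈ W
  · refine fin W rfl fun K hK => ?_
    have hK' := mem_powersetCard.1 hK
    rw [← h] at hK
    rcases (mem_sh hxy).1 hK with ⟨a1, -⟩ | ⟨a0, a1, a2, a3⟩
    · exact a1
    · have : insert x (K.erase y) ∈ sh y x 𝒦 := by
        rw [h]
        exact mem_powersetCard.2 ⟨insert_subset hx ((erase_subset _ _).trans hK'.1),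
          (card_swap a1 a2).trans hK'.2⟩
      rcases (mem_sh hxy).1 this with ⟨-, b2⟩ | ⟨b1, -⟩
      · have := b2 (mem_insert_self _ _) (by simp [hxy.symm])
        rwa [swap_swap hxy.symm a1 a2] at this
      · exact (b1 a3).elim
  obtain ⟨b, rfl⟩ : ∃ b, a = b + 1 := ⟨a - 1, by omega⟩
  have hsh : sh y x (∂ 𝒦) = powersetCard b W := by
    refine (eq_of_subset_of_card_le ?_ ?_).symm
    · refine (powersetCard_subset_shadow (by omega)).trans ?_
      rw [← h]
      exact shadow_sh_subset _ _ _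
    · rw [card_sh, card_powersetCard]
      refine hle.trans (hc.trans ?_).le
      exact Nat.choose_symm_of_eq_add (by omega)
  have hcases : ∀ T ∈ powersetCard b (W.erase y), insert y T ∈ 𝒦 ∨ insert x T ∈ 𝒦 := by
    intro T hT
    rw [mem_powersetCard] at hT
    have hyT : y ∉ T := fun h' => by simpa using hT.1 h'
    have : insert y T ∈ sh y x 𝒦 := by
      rw [h]
      exact mem_powersetCard.2 ⟨insert_subset hy (hT.1.trans (erase_subset _ _)),
        by rw [card_insert_of_notMem hyT, hT.2]⟩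
    rcases (mem_sh hxy).1 this with ⟨a1, -⟩ | ⟨-, -, -, a3⟩
    · exact Or.inl a1
    · rw [erase_insert hyT] at a3
      exact Or.inr a3
  let 𝒬 := (powersetCard b (W.erase y)).filter fun T => insert y T ∈ 𝒦
  rcases 𝒬.eq_empty_or_nonempty with hP | hP
  · refine fin (insert x (W.erase y)) (card_swap hy hx) fun K hK => ?_
    rw [mem_powersetCard] at hK
    by_cases hxK : x ∈ K
    · have hT : K.erase x ∈ powersetCard b (W.erase y) := by
        refine mem_powersetCard.2 ⟨fun z hz => ?_, by rw [card_erase_of_mem hxK, hK.2]; rfl⟩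
        rw [mem_erase] at hz
        exact (mem_insert.1 (hK.1 hz.2)).resolve_left hz.1
      rcases hcases _ hT with h1 | h1
      · have : K.erase x ∈ 𝒬 := mem_filter.2 ⟨hT, h1⟩
        rw [hP] at this
        exact (notMem_empty _ this).elim
      · rwa [insert_erase hxK] at h1
    · have h1 : K ⊆ W.erase y := (subset_insert_iff_of_notMem hxK).1 hK.1
      exact noy K (mem_powersetCard.2 ⟨h1.trans (erase_subset _ _), hK.2⟩)
        fun h' => by simpa using h1 h'
  · have hall : 𝒬 = powersetCard b (W.erase y) := by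
      refine johnson (filter_subset _ _) hP fun T hT u hu v hv hvT => ?_
      rw [mem_filter] at hT
      have hT' := mem_powersetCard.1 hT.1
      have hT2 : insert v (T.erase u) ∈ powersetCard b (W.erase y) := mem_powersetCard.2
        ⟨insert_subset hv ((erase_subset _ _).trans hT'.1), (card_swap hu hvT).trans hT'.2⟩
      refine mem_filter.2 ⟨hT2, (hcases _ hT2).resolve_right fun h1 => ?_⟩
      have hyT : y ∉ T := fun h' => by simpa using hT'.1 h'
      have hxT : x ∉ T := fun h' => hx (mem_of_mem_erase (hT'.1 h'))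
      have s1 : insert x (T.erase u) ∈ ∂ 𝒦 := by
        refine mem_shadow_iff_insert_mem.2 ⟨v, ?_, by rwa [insert_comm]⟩
        simp only [mem_insert, mem_erase, not_or, not_and]
        exact ⟨fun e => hx (e ▸ mem_of_mem_erase hv), fun _ => hvT⟩
      have s2 : insert y (T.erase u) ∈ ∂ 𝒦 := by
        refine mem_shadow_iff_insert_mem.2 ⟨u, ?_, ?_⟩
        · simp only [mem_insert, mem_erase, not_or, not_and]
          exact ⟨fun e => hyT (e ▸ hu), fun h' => (h' rfl).elim⟩
        · rw [insert_comm, insert_erase hu]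
          exact hT.2
      have s3 : insert x (T.erase u) ∈ sh y x (∂ 𝒦) := by
        refine (mem_sh hxy).2 (Or.inl ⟨s1, fun _ _ => ?_⟩)
        rwa [erase_insert (by simp [hxT])]
      rw [hsh] at s3
      exact hx ((mem_powersetCard.1 s3).1 (mem_insert_self _ _))
    refine fin W rfl fun K hK => ?_
    by_cases hyK : y ∈ K
    · rw [mem_powersetCard] at hK
      have : K.erase y ∈ 𝒬 := by
        rw [hall]
        exact mem_powersetCard.2 ⟨erase_subset_erase _ hK.1,
          by rw [card_erase_of_mem hyK, hK.2]; rfl⟩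
      have := (mem_filter.1 this).2
      rwa [insert_erase hyK] at this
    · exact noy K hK hyK

/-- the conclusion of Katona's theorem -/
def Compl (a : ℕ) (𝒦 : Finset (Finset α)) : Prop :=
  ∃ W : Finset α, W.card + 1 = 2 * a ∧ 𝒦 = powersetCard a W

theorem Compl.card_le {a : ℕ} {𝒦 : Finset (Finset α)} (h : Compl a 𝒦) :
    𝒦.card ≤ (∂ 𝒦).card := by
  obtain ⟨W, hW, rfl⟩ := h
  obtain ⟨b, rfl⟩ : ∃ b, a = b + 1 := ⟨a - 1, by omega⟩
  refine le_trans ?_ (card_le_card (powersetCard_subset_shadow (by omega)))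
  rw [card_powersetCard, card_powersetCard]
  exact (Nat.choose_symm_of_eq_add (by omega)).le

theorem Compl.le_card_inter {a : ℕ} {W F : Finset α} (hW : W.card + 1 = 2 * a)
    (h : ∀ K ∈ powersetCard a W, ∃ x, x ∈ F ∧ x ∈ K) : a ≤ (F ∩ W).card := by
  by_contra hc
  have h1 := card_sdiff_add_card_inter W F
  rw [inter_comm] at h1
  obtain ⟨K, hK1, hK2⟩ := exists_subset_card_eq (s := W \ F) (n := a) (by omega)
  obtain ⟨x, hx1, hx2⟩ := h K (mem_powersetCard.2 ⟨hK1.trans sdiff_subset, hK2⟩)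
  exact (mem_sdiff.1 (hK1 hx2)).2 hx1

/-- Katona's intersecting shadow theorem with its equality case -/
theorem katona_aux (X : Finset α) : ∀ (a : ℕ) (𝒦 : Finset (Finset α)), 𝒦 ⊆ powersetCard a X →
    Inter 𝒦 → (∂ 𝒦).card ≤ 𝒦.card → 𝒦 = ∅ ∨ Compl a 𝒦 := by
  induction X using Finset.induction_on with
  | empty =>
    intro a 𝒦 h hi _
    refine Or.inl (eq_empty_of_forall_notMem fun K hK => ?_)
    obtain ⟨x, hx, -⟩ := hi K hK K hK
    exact notMem_empty _ ((mem_powersetCard.1 (h hK)).1 hx)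
  | insert z X hz ih =>
    have ih' : ∀ (a : ℕ) (𝒦 : Finset (Finset α)), 𝒦 ⊆ powersetCard a X →
        Inter 𝒦 → 𝒦.card ≤ (∂ 𝒦).card := by
      intro a 𝒦 h hi
      by_contra hc
      rcases ih a 𝒦 h hi (by omega) with rfl | h'
      · simp at hc
      · exact hc h'.card_le
    intro a 𝒦 h hi hle
    rcases 𝒦.eq_empty_or_nonempty with he | hne
    · exact Or.inl he
    right
    by_cases hX : (insert z X).card < 2 * a
    · exact ⟨_, katona_base h hX hne hle⟩
    rw [card_insert_of_notMem hz] at hX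
    induction hn : (𝒦.filter fun A => z ∈ A).card using Nat.strong_induction_on
      generalizing 𝒦 with
    | _ n ihn =>
    by_cases hs : ∀ K ∈ 𝒦, z ∈ K → ∀ y ∈ X, y ∉ K → insert y (K.erase z) ∈ 𝒦
    swap
    · push Not at hs
      obtain ⟨K, hK, hzK, y, hy, hyK, hn'⟩ := hs
      have hzy : z ≠ y := fun e => hz (e ▸ hy)
      obtain ⟨W, hW, hW'⟩ := ihn _ (hn ▸ card_filter_mem_sh_lt hzy hK hzK hyK hn') (sh y z 𝒦)
        (sh_subset_powersetCard hzy (mem_insert_of_mem hy) h) (hi.sh hzy)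
        (by rw [card_sh]; exact (card_shadow_sh_le _ _ _).trans hle)
        (card_pos.1 (by rw [card_sh]; exact card_pos.2 hne)) rfl
      exact unshift hzy hW hW' hle
    obtain ⟨K0, hK0⟩ := hne
    obtain ⟨b, rfl⟩ : ∃ b, a = b + 1 := by
      obtain ⟨x, hx, -⟩ := hi K0 hK0 K0 hK0
      have := (mem_powersetCard.1 (h hK0)).2
      have := card_pos.2 ⟨x, hx⟩
      exact ⟨a - 1, by omega⟩
    have s0 := nonMember_subset h
    have s1 := member_subset h
    have i0 : Inter (nonMemberSubfamily z 𝒦) :=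
      hi.mono fun K hK => (mem_nonMemberSubfamily.1 hK).1
    have i1 : Inter (memberSubfamily z 𝒦) := by
      intro A hA B hB
      have cA := (mem_powersetCard.1 (s1 hA)).2
      have cB := (mem_powersetCard.1 (s1 hB)).2
      rw [mem_memberSubfamily] at hA hB
      obtain ⟨y, hy⟩ := sdiff_nonempty_of_card_lt_card (s := A ∪ B) (t := X)
        (by have := card_union_le A B; omega)
      simp only [mem_sdiff, mem_union, not_or] at hy
      have hzy : y ≠ z := fun e => hz (e ▸ hy.1)
      have := hs _ hA.1 (mem_insert_self _ _) y hy.1 (by simp [hzy, hy.2.1])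
      rw [erase_insert hA.2] at this
      obtain ⟨w, w1, w2⟩ := hi _ this _ hB.1
      rw [mem_insert] at w1 w2
      rcases w1 with rfl | w1
      · exact (w2.elim hzy hy.2.2).elim
      · exact ⟨w, w1, w2.resolve_left fun e => hA.2 (e ▸ w1)⟩
    have c0 := ih' _ _ s0 i0
    have c1 := ih' _ _ s1 i1
    have c2 := card_memberSubfamily_add_card_nonMemberSubfamily z 𝒦
    have c3 := card_shadow_eq z 𝒦
    have c4 : (∂ (nonMemberSubfamily z 𝒦)).card ≤
        (∂ (nonMemberSubfamily z 𝒦) ∪ memberSubfamily z 𝒦).card := card_le_card subset_union_left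
    rcases ih _ _ s0 i0 (by omega) with he | ⟨W, hW, hW'⟩
    · exfalso
      have hall : ∀ K ∈ 𝒦, z ∈ K := fun K hK => by
        by_contra hc
        have : K ∈ nonMemberSubfamily z 𝒦 := mem_nonMemberSubfamily.2 ⟨hK, hc⟩
        rw [he] at this
        exact notMem_empty _ this
      have cK := (mem_powersetCard.1 (h hK0)).2
      have := card_erase_add_one (hall K0 hK0)
      obtain ⟨y, hy⟩ := sdiff_nonempty_of_card_lt_card (s := K0.erase z) (t := X) (by omega)
      have hzy : y ≠ z := fun e => hz (e ▸ (mem_sdiff.1 hy).1)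
      simp only [mem_sdiff, mem_erase, not_and] at hy
      have := hall _ (hs K0 hK0 (hall K0 hK0) y hy.1 (hy.2 hzy))
      simp [hzy.symm] at this
    · refine ⟨W, hW, ?_⟩
      rw [← hW']
      ext K
      rw [mem_nonMemberSubfamily]
      refine ⟨fun hK => ⟨hK, fun hzK => ?_⟩, fun hK => hK.1⟩
      have hzW : ∀ A ∈ powersetCard (b + 1) W, A ∈ 𝒦 ∧ z ∉ A := fun A hA =>
        mem_nonMemberSubfamily.1 (hW' ▸ hA)
      have := Compl.le_card_inter (F := K.erase z) hW fun A hA => by
        obtain ⟨w, w1, w2⟩ := hi K hK A (hzW A hA).1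
        exact ⟨w, mem_erase.2 ⟨fun e => (hzW A hA).2 (e ▸ w2), w1⟩, w2⟩
      have h1 := card_le_card (inter_subset_left (s₁ := K.erase z) (s₂ := W))
      have h2 := card_erase_add_one hzK
      have cK := (mem_powersetCard.1 (h hK)).2
      omega

theorem katona {X : Finset α} {a : ℕ} {𝒦 : Finset (Finset α)} (h : 𝒦 ⊆ powersetCard a X)
    (hi : Inter 𝒦) : 𝒦.card ≤ (∂ 𝒦).card := by
  by_contra hc
  rcases katona_aux X a 𝒦 h hi (by omega) with rfl | h'
  · simp at hc
  · exact hc h'.card_le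

theorem katona_strict {X : Finset α} {a : ℕ} {𝒦 : Finset (Finset α)} (h : 𝒦 ⊆ powersetCard a X)
    (hi : Inter 𝒦) (hne : 𝒦.Nonempty) (hc : ¬ Compl a 𝒦) : 𝒦.card + 1 ≤ (∂ 𝒦).card := by
  by_contra hc'
  rcases katona_aux X a 𝒦 h hi (by omega) with h' | h'
  · exact hne.ne_empty h'
  · exact hc h'

end Pool.Agent.MP_d50107_co.H54
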