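import Pool.Agent.MP_d50107_co.H54.Upper

namespace Pool.Agent.MP_d50107_co.H54

open Finset
open scoped FinsetFamily

/-- the majority family on the first `2 * j + 1` points -/
abbrev maj (n k j : ℕ) : Finset (Finset (Fin n)) :=
  fam (fun x : Fin n => x.val < 2 * j + 1) univ k (j + 1)

/-- relabelling the points -/
theorem relabel {n k j : ℕ} {𝓕 : Finset (Finset (Fin n))} (hk : ∀ F ∈ 𝓕, F.card = k)
    {W : Finset (Fin n)} (hW : W.card = 2 * j + 1) (hF : ∀ F ∈ 𝓕, j + 1 ≤ (F ∩ W).card) :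
    ∃ 𝒢, 𝒢 ⊆ maj n k j ∧ 𝒢.card = 𝓕.card ∧ (∂ 𝒢).card ≤ (∂ 𝓕).card := by
  have hn : 2 * j + 1 ≤ n := by
    have := card_le_univ W
    rwa [Fintype.card_fin, hW] at this
  let e : W ≃ seg n (2 * j + 1) := equivOfCardEq (hW.trans (card_seg hn).symm)
  let σ : Equiv.Perm (Fin n) := Equiv.extendSubtype e
  have hσ : ∀ x ∈ W, σ x ∈ seg n (2 * j + 1) := fun x hx => Equiv.extendSubtype_mem e x hx
  refine ⟨𝓕.image fun F => F.map σ.toEmbedding, fun G hG => ?_,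
    card_image_of_injective _ (map_injective _), ?_⟩
  · obtain ⟨F, hF', rfl⟩ := mem_image.1 hG
    refine mem_fam.2 ⟨subset_univ _, by rw [card_map, hk F hF'], (hF F hF').trans ?_⟩
    rw [filter_eq_inter_seg, ← card_map σ.toEmbedding]
    refine card_le_card fun y hy => ?_
    obtain ⟨x, hx, rfl⟩ := mem_map.1 hy
    rw [mem_inter] at hx ⊢
    exact ⟨mem_map_of_mem _ hx.1, hσ x hx.2⟩
  · refine le_trans (card_le_card (t := (∂ 𝓕).image fun F => F.map σ.toEmbedding) fun T hT => ?_)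
      card_image_le
    obtain ⟨G, hG, y, hy, rfl⟩ := mem_shadow_iff.1 hT
    obtain ⟨F, hF', rfl⟩ := mem_image.1 hG
    obtain ⟨x, hx, rfl⟩ := mem_map.1 hy
    exact mem_image.2 ⟨F.erase x, erase_mem_shadow hF' hx, map_erase _ _ _⟩

theorem inter_maj (n k j : ℕ) : Inter (maj n k j) := by
  intro A hA B hB
  have a := mem_fam.1 hA
  have b := mem_fam.1 hB
  rw [filter_eq_inter_seg] at a b
  have h1 := card_union_add_card_inter (A ∩ seg n (2 * j + 1)) (B ∩ seg n (2 * j + 1))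
  have h2 : (A ∩ seg n (2 * j + 1) ∪ B ∩ seg n (2 * j + 1)).card ≤ 2 * j + 1 :=
    (card_le_card (union_subset inter_subset_right inter_subset_right)).trans (card_seg_le _ _)
  obtain ⟨x, hx⟩ : (A ∩ seg n (2 * j + 1) ∩ (B ∩ seg n (2 * j + 1))).Nonempty :=
    card_pos.1 (by omega)
  simp only [mem_inter] at hx
  exact ⟨x, hx.1.1, hx.2.1⟩

theorem card_maj_le {n k j : ℕ} (h : k ≤ j + 1) : (maj n k j).card ≤ 2 ^ (2 * k) := by
  rcases h.eq_or_lt with h | h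
  · have : maj n k j ⊆ (seg n (2 * j + 1)).powerset := by
      intro F hF
      have a := mem_fam.1 hF
      rw [filter_eq_inter_seg] at a
      exact mem_powerset.2 (inter_eq_left.1 (eq_of_subset_of_card_le inter_subset_left (by omega)))
    refine (card_le_card this).trans ?_
    rw [card_powerset]
    exact Nat.pow_le_pow_right (by norm_num) ((card_seg_le _ _).trans (by omega))
  · have : maj n k j = ∅ := eq_empty_of_forall_notMem fun F hF => by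
      have a := mem_fam.1 hF
      have := card_filter_le F fun x : Fin n => x.val < 2 * j + 1
      omega
    simp [this]

theorem le_card_star {n k : ℕ} (hk1 : 1 ≤ k) {𝓕 : Finset (Finset (Fin n))}
    (hk : ∀ F ∈ 𝓕, F.card = k) (hi : Inter 𝓕) (hm : 2 ^ (2 * k) < 𝓕.card) :
    𝓕.card ≤ (maj n k 0).card := by
  have h1 : 𝓕.card ≤ 2 ^ n := by
    have := card_le_univ 𝓕
    rwa [Fintype.card_finset, Fintype.card_fin] at this
  have hn : 2 * k < n := (Nat.pow_lt_pow_iff_right (by norm_num)).1 (hm.trans_le h1)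
  have h2 := erdos_ko_rado (𝒜 := 𝓕) (r := k) (fun A hA B hB hd => by
    obtain ⟨x, x1, x2⟩ := hi A hA B hB
    exact disjoint_left.1 hd x1 x2) (fun A hA => hk A hA) (by omega)
  have h3 := card_lower (W := seg n 1) (X := univ) (a := 1) (r := k - 1) (𝒜 := maj n k 0)
    (subset_univ _) fun F f1 f2 f3 => mem_fam.2 ⟨f1, by omega, by rwa [filter_eq_inter_seg]⟩
  rw [card_sdiff_of_subset (subset_univ _), card_univ, Fintype.card_fin, card_seg (by omega),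
    Nat.choose_self, mul_one] at h3
  exact h2.trans h3

theorem kk_maj {n k j : ℕ} {𝒢 ℒ : Finset (Finset (Fin n))} (h : 𝒢 ⊆ maj n k j)
    (hL : IsInit (maj n k j) ℒ) (hc : ℒ.card ≤ 𝒢.card) : (∂ ℒ).card ≤ (∂ 𝒢).card :=
  kk_fam (P := fun x : Fin n => x.val < 2 * j + 1) (fun _ _ h1 h2 => lt_of_le_of_lt h1 h2) univ k
    (j + 1) 𝒢 ℒ h hL hc

theorem main (k : ℕ) (hk1 : 1 ≤ k) : ∃ m₀, ∀ n m, m₀ ≤ m →
    (∃ 𝓕 : Finset (Finset (Fin n)), (∀ F ∈ 𝓕, F.card = k) ∧ Inter 𝓕 ∧ 𝓕.card = m) →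
    ∃ i ℒ, IsGreatest {j | m ≤ (maj n k j).card} i ∧ IsInit (maj n k i) ℒ ∧ ℒ.card = m ∧
      ∀ 𝓕 : Finset (Finset (Fin n)), (∀ F ∈ 𝓕, F.card = k) → Inter 𝓕 → 𝓕.card = m →
        (∂ 𝓕).card ≤ (∂ ℒ).card → (∂ ℒ).card ≤ (∂ 𝓕).card ∧
          ∃ W : Finset (Fin n), W.card = 2 * i + 1 ∧ ∀ F ∈ 𝓕, i + 1 ≤ (F ∩ W).card := by
  obtain ⟨U, hU⟩ := arith k (2 ^ (k + 1) ^ k * 2 ^ (2 * k)) (2 ^ (2 * k + 1))
  refine ⟨2 ^ U + 2 ^ (2 * k) + 1, fun n m hm ⟨𝓕₀, f1, f2, f3⟩ => ?_⟩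
  have hU0 : 0 < 2 ^ U := by positivity
  have hU1 : 0 < 2 ^ (2 * k) := by positivity
  have hm1 : 2 ^ (2 * k) < m := by omega
  have h0 : m ≤ (maj n k 0).card := f3.ge.trans (le_card_star hk1 f1 f2 (by omega))
  have hbd : ∀ j, m ≤ (maj n k j).card → j + 2 ≤ k := fun j hj => by
    by_contra hc
    have := card_maj_le (n := n) (k := k) (j := j) (by omega)
    omega
  obtain ⟨i, hi1, hi2⟩ : ∃ i, m ≤ (maj n k i).card ∧ ∀ j, m ≤ (maj n k j).card → j ≤ i :=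
    ⟨_, Nat.findGreatest_spec (P := fun j => m ≤ (maj n k j).card) (Nat.zero_le k) h0,
      fun j hj => Nat.le_findGreatest (by have := hbd j hj; omega) hj⟩
  obtain ⟨ℒ, hL, hLc⟩ := exists_isInit _ m hi1
  refine ⟨i, ℒ, ⟨hi1, hi2⟩, hL, hLc, fun 𝓕 g1 g2 g3 g4 => ?_⟩
  obtain ⟨s, hs⟩ : ∃ s, k = i + s + 2 := ⟨k - i - 2, by have := hbd i hi1; omega⟩
  obtain ⟨t, N, u1, u2, u3, u4⟩ := upper hs hm1 hL hLc
  obtain ⟨e, he⟩ : ∃ e, e = 2 ^ (2 * k + 1) * (t + 1) ^ s := ⟨_, rfl⟩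
  rw [← he] at u4
  have hex : (∂ 𝓕).card ≤ 𝓕.card + e := by omega
  have fin : ∀ p, p ^ (s + 1) ≤ k.factorial * e →
      ¬ m ≤ (p + k) * e * (2 ^ (k + 1) ^ k * 2 ^ (2 * k)) := fun p p1 p2 => by
    have := Nat.pow_le_pow_right (n := 2) (by norm_num)
      (hU s t N p m (by omega) u1 u2 (he ▸ p1) (he ▸ p2))
    omega
  rcases dichotomy g1 g2 hex with ⟨W, j, hW, hj⟩ | hd
  · obtain ⟨𝒢, r1, r2, r3⟩ := relabel g1 hW hj
    have hji := hi2 j (by rw [← g3, ← r2]; exact card_le_card r1)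
    rcases hji.eq_or_lt with rfl | hlt
    · exact ⟨(kk_maj r1 hL (by omega)).trans r3, W, hW, hj⟩
    · obtain ⟨p, p1, p2⟩ := growth (r := s + 1) g1 hW hj (by omega) (by omega) hex
      rw [g3] at p2
      refine (fin p p1 (p2.trans (Nat.mul_le_mul_left _ ?_))).elim
      exact Nat.le_mul_of_pos_left _ (by positivity)
  · rw [g3] at hd
    refine (fin 0 (by simp) (hd.trans (Nat.mul_le_mul ?_ ?_))).elim
    · exact Nat.le_mul_of_pos_left _ (by omega)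
    · exact Nat.le_mul_of_pos_right _ (by positivity)

end Pool.Agent.MP_d50107_co.H54
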