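import Mathlib

namespace Pool.Agent.MP_d50107_co.H54

open Finset
open scoped FinsetFamily

variable {α : Type*} [DecidableEq α]

/-- any two members (equal or not) have a common point -/
def Inter (𝒜 : Finset (Finset α)) : Prop := ∀ A ∈ 𝒜, ∀ B ∈ 𝒜, ∃ x, x ∈ A ∧ x ∈ B

theorem Inter.mono {𝒜 ℬ : Finset (Finset α)} (h : Inter ℬ) (hs : 𝒜 ⊆ ℬ) : Inter 𝒜 :=
  fun A hA B hB => h A (hs hA) B (hs hB)

/-- the shift replacing `x` by `y` -/
def sh (y x : α) (𝒜 : Finset (Finset α)) : Finset (Finset α) := UV.compression {y} {x} 𝒜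

theorem compress_eq {y x : α} (hxy : x ≠ y) (K : Finset α) :
    UV.compress {y} {x} K = if x ∈ K ∧ y ∉ K then insert y (K.erase x) else K := by
  unfold UV.compress
  by_cases h : x ∈ K ∧ y ∉ K
  · rw [if_pos h, if_pos (by simpa using h.symm)]
    ext z
    simp only [sup_eq_union, mem_sdiff, mem_union, mem_singleton, mem_insert, mem_erase]
    constructor
    · rintro ⟨h1 | h1, h2⟩
      · exact Or.inr ⟨h2, h1⟩
      · exact Or.inl h1
    · rintro (h1 | ⟨h1, h2⟩)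
      · exact ⟨Or.inr h1, by rw [h1]; exact hxy.symm⟩
      · exact ⟨Or.inl h2, h1⟩
  · rw [if_neg h, if_neg (by simpa [and_comm] using h)]

theorem swap_swap {y x : α} (hxy : x ≠ y) {K : Finset α} (hx : x ∈ K) (hy : y ∉ K) :
    insert x ((insert y (K.erase x)).erase y) = K := by
  rw [erase_insert (by simp [hy]), insert_erase hx]

theorem mem_sh {y x : α} (hxy : x ≠ y) {𝒜 : Finset (Finset α)} {K : Finset α} :
    K ∈ sh y x 𝒜 ↔ (K ∈ 𝒜 ∧ (x ∈ K → y ∉ K → insert y (K.erase x) ∈ 𝒜)) ∨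
      (K ∉ 𝒜 ∧ y ∈ K ∧ x ∉ K ∧ insert x (K.erase y) ∈ 𝒜) := by
  unfold sh
  rw [UV.mem_compression]
  simp only [compress_eq hxy]
  refine or_congr (and_congr_right fun hK => ?_) (and_congr_right fun hK => ?_)
  · split_ifs with h
    · exact ⟨fun h' _ _ => h', fun h' => h' h.1 h.2⟩
    · exact ⟨fun _ h1 h2 => (h ⟨h1, h2⟩).elim, fun _ => hK⟩
  · constructor
    · rintro ⟨B, hB, hBK⟩
      split_ifs at hBK with h
      · subst hBK
        refine ⟨by simp, by simp [hxy], ?_⟩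
        rwa [swap_swap hxy h.1 h.2]
      · exact (hK (hBK ▸ hB)).elim
    · rintro ⟨h1, h2, h3⟩
      refine ⟨_, h3, ?_⟩
      rw [if_pos (by simp [hxy.symm]), swap_swap hxy.symm h1 h2]

theorem card_sh (y x : α) (𝒜 : Finset (Finset α)) : (sh y x 𝒜).card = 𝒜.card :=
  UV.card_compression _ _ _

theorem card_shadow_sh_le (y x : α) (𝒜 : Finset (Finset α)) :
    (∂ (sh y x 𝒜)).card ≤ (∂ 𝒜).card :=
  UV.card_shadow_compression_le _ _ fun z hz => ⟨x, mem_singleton_self x, by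
    rw [mem_singleton.1 hz, erase_singleton, erase_singleton]
    exact UV.isCompressed_self _ _⟩

theorem Inter.sh {y x : α} (hxy : x ≠ y) {𝒜 : Finset (Finset α)} (h : Inter 𝒜) :
    Inter (sh y x 𝒜) := by
  have key : ∀ A B : Finset α, A ∈ 𝒜 → (x ∈ A → y ∉ A → insert y (A.erase x) ∈ 𝒜) →
      y ∈ B → x ∉ B → insert x (B.erase y) ∈ 𝒜 → ∃ z, z ∈ A ∧ z ∈ B := by
    intro A B hA hA' hy hx hB
    by_cases hyA : y ∈ A
    · exact ⟨y, hyA, hy⟩
    by_cases hxA : x ∈ A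
    · obtain ⟨z, h1, h2⟩ := h _ (hA' hxA hyA) _ hB
      simp only [mem_insert, mem_erase] at h1 h2
      rcases h1 with rfl | ⟨h1, h1'⟩
      · rcases h2 with h2 | h2
        · exact (hxy h2.symm).elim
        · exact (h2.1 rfl).elim
      · rcases h2 with h2 | h2
        · exact (h1 h2).elim
        · exact ⟨z, h1', h2.2⟩
    · obtain ⟨z, h1, h2⟩ := h _ hA _ hB
      simp only [mem_insert, mem_erase] at h2
      rcases h2 with rfl | h2
      · exact (hxA h1).elim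
      · exact ⟨z, h1, h2.2⟩
  intro A hA B hB
  rcases (mem_sh hxy).1 hA with ⟨a1, a2⟩ | ⟨-, a1, a2, a3⟩ <;>
    rcases (mem_sh hxy).1 hB with ⟨b1, b2⟩ | ⟨-, b1, b2, b3⟩
  · exact h A a1 B b1
  · exact key A B a1 a2 b1 b2 b3
  · obtain ⟨z, h1, h2⟩ := key B A b1 b2 a1 a2 a3
    exact ⟨z, h2, h1⟩
  · exact ⟨y, a1, b1⟩

theorem card_swap {y x : α} {K : Finset α} (hx : x ∈ K) (hy : y ∉ K) :
    (insert y (K.erase x)).card = K.card := by
  rw [card_insert_of_notMem (by simp [hy]), card_erase_add_one hx]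

theorem sh_subset_powersetCard {y x : α} (hxy : x ≠ y) {𝒜 : Finset (Finset α)} {X : Finset α}
    {k : ℕ} (hy : y ∈ X) (h : 𝒜 ⊆ powersetCard k X) : sh y x 𝒜 ⊆ powersetCard k X := by
  intro K hK
  rcases (mem_sh hxy).1 hK with ⟨a1, -⟩ | ⟨-, a1, a2, a3⟩
  · exact h a1
  · have := mem_powersetCard.1 (h a3)
    rw [card_swap a1 a2] at this
    refine mem_powersetCard.2 ⟨fun z hz => ?_, this.2⟩
    by_cases hzy : z = y
    · exact hzy ▸ hy
    · exact this.1 (by simp [hz, hzy])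

theorem card_filter_mem_sh_lt {y x : α} (hxy : x ≠ y) {𝒜 : Finset (Finset α)} {K : Finset α}
    (hK : K ∈ 𝒜) (hx : x ∈ K) (hy : y ∉ K) (hn : insert y (K.erase x) ∉ 𝒜) :
    ((sh y x 𝒜).filter fun A => x ∈ A).card < (𝒜.filter fun A => x ∈ A).card := by
  refine card_lt_card ⟨fun A hA => ?_, fun hs => ?_⟩
  · rw [mem_filter] at hA ⊢
    rcases (mem_sh hxy).1 hA.1 with ⟨a1, -⟩ | ⟨-, -, a2, -⟩
    · exact ⟨a1, hA.2⟩
    · exact (a2 hA.2).elim
  · have := (mem_filter.1 (hs (mem_filter.2 ⟨hK, hx⟩))).1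
    rcases (mem_sh hxy).1 this with ⟨-, a2⟩ | ⟨a1, -⟩
    · exact hn (a2 hx hy)
    · exact a1 hK

theorem card_filter_notMem_sh_lt {y x : α} (hxy : x ≠ y) {𝒜 : Finset (Finset α)} {K : Finset α}
    (hK : K ∈ 𝒜) (hx : x ∈ K) (hy : y ∉ K) (hn : insert y (K.erase x) ∉ 𝒜) :
    ((sh y x 𝒜).filter fun A => y ∉ A).card < (𝒜.filter fun A => y ∉ A).card := by
  refine card_lt_card ⟨fun A hA => ?_, fun hs => ?_⟩
  · rw [mem_filter] at hA ⊢
    rcases (mem_sh hxy).1 hA.1 with ⟨a1, -⟩ | ⟨-, a2, -⟩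
    · exact ⟨a1, hA.2⟩
    · exact (hA.2 a2).elim
  · have := (mem_filter.1 (hs (mem_filter.2 ⟨hK, hy⟩))).1
    rcases (mem_sh hxy).1 this with ⟨-, a2⟩ | ⟨a1, -⟩
    · exact hn (a2 hx hy)
    · exact a1 hK

theorem member_shadow (y : α) (𝒜 : Finset (Finset α)) :
    memberSubfamily y (∂ 𝒜) = ∂ (memberSubfamily y 𝒜) := by
  ext T
  simp only [mem_memberSubfamily, mem_shadow_iff_insert_mem, mem_insert, not_or]
  constructor
  · rintro ⟨⟨a, ⟨h1, h2⟩, h3⟩, h4⟩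
    exact ⟨a, h2, by rwa [insert_comm], Ne.symm h1, h4⟩
  · rintro ⟨a, h2, h3, h1, h4⟩
    exact ⟨⟨a, ⟨Ne.symm h1, h2⟩, by rwa [insert_comm]⟩, h4⟩

theorem nonMember_shadow (y : α) (𝒜 : Finset (Finset α)) :
    nonMemberSubfamily y (∂ 𝒜) = ∂ (nonMemberSubfamily y 𝒜) ∪ memberSubfamily y 𝒜 := by
  ext T
  simp only [mem_nonMemberSubfamily, mem_memberSubfamily, mem_shadow_iff_insert_mem, mem_insert,
    not_or, mem_union]
  constructor
  · rintro ⟨⟨a, h2, h3⟩, h4⟩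
    by_cases hay : a = y
    · exact Or.inr ⟨hay ▸ h3, h4⟩
    · exact Or.inl ⟨a, h2, h3, Ne.symm hay, h4⟩
  · rintro (⟨a, h2, h3, -, h4⟩ | ⟨h3, h4⟩)
    · exact ⟨⟨a, h2, h3⟩, h4⟩
    · exact ⟨⟨y, h4, h3⟩, h4⟩

theorem card_shadow_eq (y : α) (𝒜 : Finset (Finset α)) :
    (∂ 𝒜).card = (∂ (memberSubfamily y 𝒜)).card +
      (∂ (nonMemberSubfamily y 𝒜) ∪ memberSubfamily y 𝒜).card := by
  rw [← member_shadow, ← nonMember_shadow, card_memberSubfamily_add_card_nonMemberSubfamily]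

theorem nonMember_subset {y : α} {X : Finset α} {k : ℕ} {𝒜 : Finset (Finset α)}
    (h : 𝒜 ⊆ powersetCard k (insert y X)) : nonMemberSubfamily y 𝒜 ⊆ powersetCard k X := by
  intro K hK
  rw [mem_nonMemberSubfamily] at hK
  have := mem_powersetCard.1 (h hK.1)
  exact mem_powersetCard.2 ⟨(subset_insert_iff_of_notMem hK.2).1 this.1, this.2⟩

theorem member_subset {y : α} {X : Finset α} {k : ℕ} {𝒜 : Finset (Finset α)}
    (h : 𝒜 ⊆ powersetCard (k + 1) (insert y X)) : memberSubfamily y 𝒜 ⊆ powersetCard k X := by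
  intro K hK
  rw [mem_memberSubfamily] at hK
  have := mem_powersetCard.1 (h hK.1)
  rw [card_insert_of_notMem hK.2] at this
  exact mem_powersetCard.2 ⟨(subset_insert_iff_of_notMem hK.2).1
    ((subset_insert _ _).trans this.1), by omega⟩

end Pool.Agent.MP_d50107_co.H54
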