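import Pool.Agent.MP_d50107_co.H54.Katona

namespace Pool.Agent.MP_d50107_co.H54

open Finset
open scoped FinsetFamily

variable {α : Type*} [DecidableEq α]

theorem nucleus_aux {k : ℕ} {𝓕 : Finset (Finset α)} (hk : ∀ F ∈ 𝓕, F.card ≤ k) (d : ℕ) :
    ∀ S : Finset α, ∃ Z : Finset α, Z.card + 1 ≤ (k + 1) ^ d ∧ ∀ F, S ⊆ F → F.card ≤ S.card + d →
      (∀ G ∈ 𝓕, ∃ x, x ∈ F ∧ x ∈ G) → ∀ G ∈ 𝓕, ∃ x, x ∈ F ∧ x ∈ G ∧ (x ∈ Z ∨ x ∈ S) := by
  induction d with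
  | zero =>
    intro S
    refine ⟨∅, by simp, fun F h1 h2 h3 G hG => ?_⟩
    obtain ⟨x, hx1, hx2⟩ := h3 G hG
    exact ⟨x, hx1, hx2, Or.inr (eq_of_subset_of_card_le h1 h2 ▸ hx1)⟩
  | succ d ih =>
    intro S
    by_cases hS : ∀ G ∈ 𝓕, ∃ x, x ∈ S ∧ x ∈ G
    · refine ⟨∅, by simpa using Nat.one_le_pow _ _ (Nat.succ_pos k), fun F h1 _ _ G hG => ?_⟩
      obtain ⟨x, hx1, hx2⟩ := hS G hG
      exact ⟨x, h1 hx1, hx2, Or.inr hx1⟩
    push Not at hS
    obtain ⟨G0, hG0, hdis⟩ := hS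
    choose Z hZ1 hZ2 using ih
    refine ⟨G0 ∪ G0.biUnion fun x => Z (insert x S), ?_, fun F h1 h2 h3 G hG => ?_⟩
    · obtain ⟨c, hc⟩ : ∃ c, (k + 1) ^ d = c + 1 :=
        ⟨(k + 1) ^ d - 1, by have := Nat.one_le_pow d _ (Nat.succ_pos k); simp at this; omega⟩
      have e1 := card_union_le G0 (G0.biUnion fun x => Z (insert x S))
      have e2 : (G0.biUnion fun x => Z (insert x S)).card ≤ G0.card * c :=
        card_biUnion_le_card_mul _ _ _ fun x _ => by have := hZ1 (insert x S); omega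
      have e3 := hk G0 hG0
      have e4 := Nat.mul_le_mul_right c e3
      rw [pow_succ, hc]
      nlinarith
    · obtain ⟨x, hx1, hx2⟩ := h3 G0 hG0
      have hxS : x ∉ S := fun h => hdis x h hx2
      obtain ⟨w, w1, w2, w3⟩ := hZ2 (insert x S) F (insert_subset hx1 h1)
        (by rw [card_insert_of_notMem hxS]; omega) h3 G hG
      refine ⟨w, w1, w2, ?_⟩
      rcases w3 with w3 | w3
      · exact Or.inl (mem_union_right _ (mem_biUnion.2 ⟨x, hx2, w3⟩))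
      · rcases mem_insert.1 w3 with rfl | w3
        · exact Or.inl (mem_union_left _ hx2)
        · exact Or.inr w3

/-- every intersecting family stays intersecting on a bounded set -/
theorem nucleus {k : ℕ} {𝓕 : Finset (Finset α)} (hk : ∀ F ∈ 𝓕, F.card ≤ k) (hi : Inter 𝓕) :
    ∃ Z : Finset α, Z.card ≤ (k + 1) ^ k ∧ ∀ F ∈ 𝓕, ∀ G ∈ 𝓕, ∃ x, x ∈ F ∧ x ∈ G ∧ x ∈ Z := by
  obtain ⟨Z, h1, h2⟩ := nucleus_aux hk k ∅
  refine ⟨Z, by omega, fun F hF G hG => ?_⟩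
  obtain ⟨x, x1, x2, x3⟩ := h2 F (empty_subset _) (by simpa using hk F hF) (hi F hF) G hG
  exact ⟨x, x1, x2, by simpa using x3⟩

/-- traces on `Z` of the members whose part outside `Z` is `G` -/
def tr (Z G : Finset α) (𝓕 : Finset (Finset α)) : Finset (Finset α) :=
  (𝓕.filter fun F => F \ Z = G).image fun F => F ∩ Z

theorem mem_tr {Z G T : Finset α} {𝓕 : Finset (Finset α)} :
    T ∈ tr Z G 𝓕 ↔ ∃ F ∈ 𝓕, F \ Z = G ∧ F ∩ Z = T := by
  simp [tr, and_assoc]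

theorem card_eq_sum_tr (Z : Finset α) (𝓕 𝒯 : Finset (Finset α)) (h : ∀ F ∈ 𝓕, F \ Z ∈ 𝒯) :
    𝓕.card = ∑ G ∈ 𝒯, (tr Z G 𝓕).card := by
  rw [card_eq_sum_card_fiberwise (f := fun F => F \ Z) (t := 𝒯) fun F hF => h F hF]
  refine sum_congr rfl fun G _ => (card_image_of_injOn fun A hA B hB e => ?_).symm
  simp only [coe_filter, Set.mem_ofPred_eq] at hA hB e
  rw [← sdiff_union_inter A Z, ← sdiff_union_inter B Z, hA.2, hB.2, e]

theorem shadow_tr_subset (Z G : Finset α) (𝓕 : Finset (Finset α)) :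
    ∂ (tr Z G 𝓕) ⊆ tr Z G (∂ 𝓕) := by
  intro T hT
  obtain ⟨K, hK, x, hx, rfl⟩ := mem_shadow_iff.1 hT
  obtain ⟨F, hF, rfl, rfl⟩ := mem_tr.1 hK
  rw [mem_inter] at hx
  refine mem_tr.2 ⟨F.erase x, erase_mem_shadow hF hx.1, ?_, erase_inter _ _ _⟩
  rw [erase_sdiff_comm, erase_eq_of_notMem (by simp [hx.2])]

theorem tr_subset {k : ℕ} {𝓕 : Finset (Finset α)} (hk : ∀ F ∈ 𝓕, F.card = k) (Z G : Finset α) :
    tr Z G 𝓕 ⊆ powersetCard (k - G.card) Z := by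
  intro T hT
  obtain ⟨F, hF, rfl, rfl⟩ := mem_tr.1 hT
  have := card_sdiff_add_card_inter F Z
  have := hk F hF
  exact mem_powersetCard.2 ⟨inter_subset_right, by omega⟩

theorem inter_tr {Z : Finset α} {𝓕 : Finset (Finset α)}
    (h : ∀ F ∈ 𝓕, ∀ G ∈ 𝓕, ∃ x, x ∈ F ∧ x ∈ G ∧ x ∈ Z) (G : Finset α) : Inter (tr Z G 𝓕) := by
  intro A hA B hB
  obtain ⟨F, hF, -, rfl⟩ := mem_tr.1 hA
  obtain ⟨F', hF', -, rfl⟩ := mem_tr.1 hB
  obtain ⟨x, x1, x2, x3⟩ := h F hF F' hF'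
  exact ⟨x, mem_inter.2 ⟨x1, x3⟩, mem_inter.2 ⟨x2, x3⟩⟩

theorem excess_ge {k : ℕ} {Z : Finset α} {𝓕 : Finset (Finset α)} (hk : ∀ F ∈ 𝓕, F.card = k)
    (h : ∀ F ∈ 𝓕, ∀ G ∈ 𝓕, ∃ x, x ∈ F ∧ x ∈ G ∧ x ∈ Z) (D : Finset (Finset α))
    (hD : ∀ G ∈ D, (tr Z G 𝓕).card + 1 ≤ (tr Z G (∂ 𝓕)).card) :
    𝓕.card + D.card ≤ (∂ 𝓕).card := by
  let 𝒯 := (𝓕.image fun F => F \ Z) ∪ ((∂ 𝓕).image fun F => F \ Z) ∪ D
  have hDT : D ⊆ 𝒯 := subset_union_right
  rw [card_eq_sum_tr Z 𝓕 𝒯 fun F hF =>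
      mem_union_left _ (mem_union_left _ (mem_image_of_mem _ hF)),
    card_eq_sum_tr Z (∂ 𝓕) 𝒯 fun F hF =>
      mem_union_left _ (mem_union_right _ (mem_image_of_mem _ hF)),
    ← sum_sdiff hDT, ← sum_sdiff hDT, card_eq_sum_ones D, add_assoc, ← sum_add_distrib]
  refine add_le_add (sum_le_sum fun G _ => ?_) (sum_le_sum hD)
  exact (katona (tr_subset hk Z G) (inter_tr h G)).trans (card_le_card (shadow_tr_subset _ _ _))

theorem card_le_tails (Z : Finset α) (𝓕 : Finset (Finset α)) :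
    𝓕.card ≤ (𝓕.image fun F => F \ Z).card * 2 ^ Z.card := by
  rw [card_eq_sum_tr Z 𝓕 _ fun F hF => mem_image_of_mem _ hF, ← smul_eq_mul]
  refine sum_le_card_nsmul _ _ _ fun G _ => ?_
  rw [← card_powerset]
  refine card_le_card fun T hT => ?_
  obtain ⟨F, -, -, rfl⟩ := mem_tr.1 hT
  exact mem_powerset.2 inter_subset_right

/-- either the family lies in a majority family or its shadow is larger by a constant factor -/
theorem dichotomy {k : ℕ} {𝓕 : Finset (Finset α)} (hk : ∀ F ∈ 𝓕, F.card = k) (hi : Inter 𝓕)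
    {e : ℕ} (he : (∂ 𝓕).card ≤ 𝓕.card + e) :
    (∃ (W : Finset α) (j : ℕ), W.card = 2 * j + 1 ∧ ∀ F ∈ 𝓕, j + 1 ≤ (F ∩ W).card) ∨
      𝓕.card ≤ e * 2 ^ (k + 1) ^ k := by
  obtain ⟨Z, hZ, hZi⟩ := nucleus (fun F hF => (hk F hF).le) hi
  by_cases hc : ∃ G, Compl (k - G.card) (tr Z G 𝓕)
  · obtain ⟨G, W, hW, hW'⟩ := hc
    refine Or.inl ⟨W, k - G.card - 1, by omega, fun F hF => ?_⟩
    have := Compl.le_card_inter (F := F) hW fun K hK => by
      rw [← hW'] at hK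
      obtain ⟨F', hF', -, rfl⟩ := mem_tr.1 hK
      obtain ⟨x, x1, x2, x3⟩ := hZi F hF F' hF'
      exact ⟨x, x1, mem_inter.2 ⟨x2, x3⟩⟩
    omega
  · right
    push Not at hc
    have := excess_ge hk hZi (𝓕.image fun F => F \ Z) fun G hG => by
      obtain ⟨F, hF, rfl⟩ := mem_image.1 hG
      exact (katona_strict (tr_subset hk Z _) (inter_tr hZi _) ⟨_, mem_tr.2 ⟨F, hF, rfl, rfl⟩⟩
        (hc _)).trans (card_le_card (shadow_tr_subset _ _ _))
    exact (card_le_tails Z 𝓕).trans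
      (Nat.mul_le_mul (by omega) (Nat.pow_le_pow_right (by norm_num) hZ))

theorem inter_of_major {W : Finset α} {j : ℕ} (hW : W.card = 2 * j + 1) {F G : Finset α}
    (hF : j + 1 ≤ (F ∩ W).card) (hG : j + 1 ≤ (G ∩ W).card) : ∃ x, x ∈ F ∧ x ∈ G ∧ x ∈ W := by
  have h1 := card_union_add_card_inter (F ∩ W) (G ∩ W)
  have h2 : (F ∩ W ∪ G ∩ W).card ≤ W.card :=
    card_le_card (union_subset inter_subset_right inter_subset_right)
  obtain ⟨x, hx⟩ : (F ∩ W ∩ (G ∩ W)).Nonempty := card_pos.1 (by omega)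
  simp only [mem_inter] at hx
  exact ⟨x, hx.1.1, hx.2.1, hx.1.2⟩

/-- a weak form of the Kruskal-Katona theorem -/
theorem weak_kk {n s : ℕ} {𝒢 : Finset (Finset (Fin n))} (h : ∀ G ∈ 𝒢, G.card = s + 1)
    (hne : 𝒢.Nonempty) : ∃ p, 1 ≤ p ∧ p ^ s ≤ s.factorial * (∂ 𝒢).card ∧
      𝒢.card ≤ (p + s) * (∂ 𝒢).card := by
  have hpos := card_pos.2 hne
  obtain ⟨G, hG⟩ := hne
  have hsn : s + 1 ≤ n := by
    have := card_le_univ G
    rw [Fintype.card_fin, h G hG] at this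
    exact this
  set M := Nat.findGreatest (fun M => M.choose (s + 1) ≤ 𝒢.card) n with hM
  have h1 : s + 1 ≤ M := Nat.le_findGreatest hsn (by simpa using hpos)
  have h2 : M ≤ n := Nat.findGreatest_le n
  have h3 : M.choose (s + 1) ≤ 𝒢.card :=
    Nat.findGreatest_spec (P := fun M => M.choose (s + 1) ≤ 𝒢.card) hsn (by simpa using hpos)
  have h4 : 𝒢.card ≤ (M + 1).choose (s + 1) := by
    rcases h2.eq_or_lt with e | e
    · have : 𝒢 ⊆ powersetCard (s + 1) univ := fun A hA =>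
        mem_powersetCard.2 ⟨subset_univ _, h A hA⟩
      have := card_le_card this
      rw [card_powersetCard, card_univ, Fintype.card_fin] at this
      exact this.trans (Nat.choose_le_choose _ (by omega))
    · exact (not_le.1 (Nat.findGreatest_is_greatest (P := fun M => M.choose (s + 1) ≤ 𝒢.card)
        (Nat.lt_succ_self M) e)).le
  have h5 := kruskal_katona_lovasz_form (i := 1) (by omega) h1 h2 (fun A hA => h A hA) h3
  simp only [Nat.add_sub_cancel, Function.iterate_one] at h5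
  refine ⟨M + 1 - s, by omega, ?_, ?_⟩
  · refine (Nat.pow_sub_le_descFactorial M s).trans ?_
    rw [Nat.descFactorial_eq_factorial_mul_choose]
    exact Nat.mul_le_mul_left _ h5
  · have h6 := Nat.add_one_mul_choose_eq M s
    have h7 := Nat.mul_le_mul_left (M + 1) h5
    rw [show M + 1 - s + s = M + 1 by omega]
    nlinarith

/-- growth of the excess of a subfamily of a majority family -/
theorem growth {n k j r : ℕ} {𝓕 : Finset (Finset (Fin n))} (hk : ∀ F ∈ 𝓕, F.card = k)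
    {W : Finset (Fin n)} (hW : W.card = 2 * j + 1) (hF : ∀ F ∈ 𝓕, j + 1 ≤ (F ∩ W).card)
    (hr : 1 ≤ r) (hj : j + r + 2 ≤ k) {e : ℕ} (he : (∂ 𝓕).card ≤ 𝓕.card + e) :
    ∃ p, p ^ r ≤ k.factorial * e ∧ 𝓕.card ≤ (p + k) * e * 2 ^ (2 * k) := by
  obtain ⟨s, hs⟩ : ∃ s, k = j + s + 2 := ⟨k - j - 2, by omega⟩
  have hZi : ∀ F ∈ 𝓕, ∀ G ∈ 𝓕, ∃ x, x ∈ F ∧ x ∈ G ∧ x ∈ W := fun A hA B hB =>
    inter_of_major hW (hF A hA) (hF B hB)
  let 𝒯 := 𝓕.image fun F => F \ W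
  let 𝒢 := 𝒯.filter fun G => G.card = s + 1
  let 𝒮 := 𝒯.filter fun G => ¬ G.card = s + 1
  have strict : ∀ G : Finset (Fin n), G.card ≤ s → (tr W G 𝓕).Nonempty →
      (tr W G 𝓕).card + 1 ≤ (tr W G (∂ 𝓕)).card := by
    intro G hG hne
    refine le_trans ?_ (card_le_card (shadow_tr_subset _ _ _))
    by_contra hc
    have := (katona_base (tr_subset hk W G) (by omega) hne (by omega)).1
    omega
  have h1 := excess_ge hk hZi 𝒮 fun G hG => by
    rw [mem_filter] at hG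
    obtain ⟨F, hF', rfl⟩ := mem_image.1 hG.1
    refine strict _ ?_ ⟨_, mem_tr.2 ⟨F, hF', rfl, rfl⟩⟩
    have := card_sdiff_add_card_inter F W
    have := hk F hF'
    have := hF F hF'
    have := hG.2
    omega
  have h2 := excess_ge hk hZi (∂ 𝒢) fun G hG => by
    obtain ⟨G', hG', x, hx, rfl⟩ := mem_shadow_iff.1 hG
    rw [mem_filter] at hG'
    rcases (tr W (G'.erase x) 𝓕).eq_empty_or_nonempty with h0 | h0
    · obtain ⟨F, hF', rfl⟩ := mem_image.1 hG'.1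
      rw [h0, card_empty, zero_add]
      exact card_pos.2 ⟨_, mem_tr.2 ⟨F.erase x, erase_mem_shadow hF' (mem_sdiff.1 hx).1,
        erase_sdiff_comm _ _ _, rfl⟩⟩
    · refine strict _ ?_ h0
      have := card_erase_add_one hx
      omega
  have h3 : 𝒢.card + 𝒮.card = 𝒯.card := card_filter_add_card_filter_not _
  have h4 : 𝓕.card ≤ 𝒯.card * 2 ^ (2 * k) :=
    (card_le_tails W 𝓕).trans (Nat.mul_le_mul_left _ (Nat.pow_le_pow_right (by norm_num) (by omega)))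
  rcases 𝒢.eq_empty_or_nonempty with h0 | h0
  · refine ⟨0, by rw [zero_pow (by omega)]; exact Nat.zero_le _,
      h4.trans (Nat.mul_le_mul_right _ ?_)⟩
    rw [h0, card_empty] at h3
    have : 1 * e ≤ (0 + k) * e := Nat.mul_le_mul_right _ (by omega)
    omega
  · obtain ⟨p, p1, p2, p3⟩ := weak_kk (𝒢 := 𝒢) (s := s) (fun G hG => (mem_filter.1 hG).2) h0
    have h5 : (∂ 𝒢).card ≤ e := by omega
    refine ⟨p, ?_, h4.trans (Nat.mul_le_mul_right _ ?_)⟩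
    · exact (Nat.pow_le_pow_right p1 (by omega)).trans
        (p2.trans (Nat.mul_le_mul (Nat.factorial_le (by omega)) h5))
    · have h6 := Nat.mul_le_mul_left (p + s) h5
      have h7 : (p + s + 1) * e ≤ (p + k) * e := Nat.mul_le_mul_right _ (by omega)
      have h8 : 𝒮.card ≤ e := by omega
      nlinarith

end Pool.Agent.MP_d50107_co.H54
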