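import Pool.Agent.MP_d50107_co.H54.Trace
import Pool.Agent.MP_d50107_co.H54.KKA

namespace Pool.Agent.MP_d50107_co.H54

open Finset
open scoped FinsetFamily

section

variable {α : Type*} [DecidableEq α]

theorem card_small_subsets (X : Finset α) (s : ℕ) :
    (X.powerset.filter fun G => G.card ≤ s).card ≤ (X.card + 1) ^ s := by
  induction s with
  | zero =>
    rw [pow_zero, card_le_one]
    intro a ha b hb
    rw [card_eq_zero.1 (Nat.le_zero.1 (mem_filter.1 ha).2),
      card_eq_zero.1 (Nat.le_zero.1 (mem_filter.1 hb).2)]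
  | succ s ih =>
    have h1 : (X.powerset.filter fun G => G.card ≤ s + 1) ⊆
        (X.powerset.filter fun G => G.card ≤ s) ∪ powersetCard (s + 1) X := by
      intro G hG
      simp only [mem_filter, mem_powerset, mem_union, mem_powersetCard] at hG ⊢
      by_cases h : G.card ≤ s
      · exact Or.inl ⟨hG.1, h⟩
      · exact Or.inr ⟨hG.1, by omega⟩
    have h2 := (card_le_card h1).trans (card_union_le _ _)
    rw [card_powersetCard] at h2
    have h3 := Nat.choose_le_pow X.card (s + 1)
    have h4 : X.card ^ s ≤ (X.card + 1) ^ s := Nat.pow_le_pow_left (Nat.le_succ _) _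
    have h5 := Nat.mul_le_mul_right X.card h4
    rw [pow_succ] at h3 ⊢
    nlinarith

theorem card_upper {W X : Finset α} {i s : ℕ} {ℋ : Finset (Finset α)}
    (h : ∀ H ∈ ℋ, H ⊆ X ∧ H.card = i + (s + 1) ∧ i ≤ (H ∩ W).card) :
    ℋ.card ≤ (X \ W).card.choose (s + 1) * W.card.choose i + (X.card + 1) ^ s * 2 ^ W.card := by
  let 𝒮 := X.powerset.filter fun G => G.card ≤ s
  have hd : Disjoint (powersetCard (s + 1) (X \ W)) 𝒮 := by
    rw [disjoint_left]
    intro G h1 h2
    have := (mem_powersetCard.1 h1).2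
    have := (mem_filter.1 h2).2
    omega
  rw [card_eq_sum_tr W ℋ (powersetCard (s + 1) (X \ W) ∪ 𝒮) fun H hH => by
    obtain ⟨h1, h2, h3⟩ := h H hH
    have := card_sdiff_add_card_inter H W
    simp only [𝒮, mem_union, mem_powersetCard, mem_filter, mem_powerset]
    by_cases hc : (H \ W).card ≤ s
    · exact Or.inr ⟨sdiff_subset.trans h1, hc⟩
    · exact Or.inl ⟨sdiff_subset_sdiff h1 subset_rfl, by omega⟩, sum_union hd]
  refine add_le_add ?_ ?_
  · rw [← card_powersetCard (s + 1), ← smul_eq_mul]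
    refine sum_le_card_nsmul _ _ _ fun G hG => ?_
    have := card_le_card (tr_subset (fun H hH => (h H hH).2.1) W G)
    rwa [card_powersetCard, (mem_powersetCard.1 hG).2, Nat.add_sub_cancel] at this
  · refine (sum_le_card_nsmul _ _ (2 ^ W.card) fun G _ => ?_).trans ?_
    · rw [← card_powerset]
      refine card_le_card fun T hT => ?_
      obtain ⟨F, -, -, rfl⟩ := mem_tr.1 hT
      exact mem_powerset.2 inter_subset_right
    · exact Nat.mul_le_mul_right _ (card_small_subsets X s)

theorem card_lower {W X : Finset α} {a r : ℕ} {𝒜 : Finset (Finset α)} (hWX : W ⊆ X)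
    (h : ∀ F, F ⊆ X → F.card = a + r → a ≤ (F ∩ W).card → F ∈ 𝒜) :
    (X \ W).card.choose r * W.card.choose a ≤ 𝒜.card := by
  rw [card_eq_sum_tr W 𝒜 (powersetCard r (X \ W) ∪ 𝒜.image fun F => F \ W) fun H hH =>
    mem_union_right _ (mem_image_of_mem _ hH)]
  refine le_trans ?_ (sum_le_sum_of_subset subset_union_left)
  rw [← card_powersetCard r, ← smul_eq_mul]
  refine card_nsmul_le_sum _ _ _ fun G hG => ?_
  rw [← card_powersetCard]
  refine card_le_card fun T hT => ?_
  rw [mem_powersetCard] at hG hT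
  have hd : Disjoint G W := disjoint_of_subset_left hG.1 sdiff_disjoint
  have e1 : (T ∪ G) ∩ W = T := by
    rw [union_inter_distrib_right, inter_eq_left.2 hT.1, disjoint_iff_inter_eq_empty.1 hd,
      union_empty]
  have e2 : (T ∪ G) \ W = G := by
    rw [union_sdiff_distrib, sdiff_eq_empty_iff_subset.2 hT.1, empty_union, hd.sdiff_eq_left]
  refine mem_tr.2 ⟨T ∪ G, h _ (union_subset (hT.1.trans hWX) (hG.1.trans sdiff_subset)) ?_ ?_, e2,
    e1⟩
  · rw [card_union_of_disjoint (disjoint_of_subset_left hT.1 hd.symm), hT.2, hG.2]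
  · rw [e1, hT.2]

end

/-- the first `t` points -/
def seg (n t : ℕ) : Finset (Fin n) := univ.filter fun x => x.val < t

theorem card_seg {n t : ℕ} (h : t ≤ n) : (seg n t).card = t := by
  rw [seg, Fin.card_filter_val_lt, min_eq_right h]

theorem card_seg_le (n t : ℕ) : (seg n t).card ≤ t := by
  rw [seg, Fin.card_filter_val_lt]
  exact min_le_right _ _

theorem filter_eq_inter_seg {n t : ℕ} (F : Finset (Fin n)) :
    (F.filter fun x => x.val < t) = F ∩ seg n t := by
  ext x
  simp [seg]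

theorem seg_mono {n s t : ℕ} (h : s ≤ t) : seg n s ⊆ seg n t := by
  intro x hx
  simp only [seg, mem_filter, mem_univ, true_and] at hx ⊢
  omega

/-- upper bound for the shadow of the colex segment -/
theorem upper {n k i s m : ℕ} (hk : k = i + s + 2) (hm : 2 ^ (2 * k) < m) {ℒ : Finset (Finset (Fin n))}
    (hL : IsInit (fam (fun x : Fin n => x.val < 2 * i + 1) univ k (i + 1)) ℒ) (hc : ℒ.card = m) :
    ∃ t N, t ≤ N + 2 * k ∧ N.choose (s + 1) ≤ m ∧ m ≤ 2 ^ t ∧
      (∂ ℒ).card ≤ m + 2 ^ (2 * k + 1) * (t + 1) ^ s := by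
  let P : Fin n → Prop := fun x => x.val < 2 * i + 1
  have hP : ∀ x y : Fin n, x ≤ y → P y → P x := fun x y h1 h2 => lt_of_le_of_lt h1 h2
  have hex : ∃ t, t ≤ n ∧ m ≤ (fam P (seg n t) k (i + 1)).card := by
    refine ⟨n, le_rfl, ?_⟩
    have : seg n n = univ := by ext x; simp [seg]
    rw [this, ← hc]
    exact card_le_card hL.1
  classical
  obtain ⟨htn, ht⟩ := Nat.find_spec hex
  have hmin := fun t' (h : t' < Nat.find hex) => Nat.find_min hex h
  set t := Nat.find hex
  have h2t : m ≤ 2 ^ t := by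
    refine ht.trans ((card_filter_le _ _).trans ?_)
    rw [card_powersetCard, card_seg htn]
    exact Nat.choose_le_two_pow _ _
  have htk : 2 * k < t := (Nat.pow_lt_pow_iff_right (by norm_num)).1 (hm.trans_le h2t)
  obtain ⟨N, hN⟩ : ∃ N, t = N + (2 * i + 1) + 1 := ⟨t - (2 * i + 2), by omega⟩
  have cW : (seg n (2 * i + 1)).card = 2 * i + 1 := card_seg (by omega)
  have l1 := card_lower (W := seg n (2 * i + 1)) (X := seg n (t - 1)) (a := i + 1) (r := s + 1)
    (𝒜 := fam P (seg n (t - 1)) k (i + 1)) (seg_mono (by omega)) fun F h1 h2 h3 =>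
      mem_fam.2 ⟨h1, by omega, by rwa [filter_eq_inter_seg]⟩
  have l2 : (fam P (seg n (t - 1)) k (i + 1)).card < m := by
    have := hmin (t - 1) (by omega)
    push Not at this
    exact this (by omega)
  rw [card_sdiff_of_subset (seg_mono (by omega)), cW, card_seg (by omega),
    show t - 1 - (2 * i + 1) = N by omega] at l1
  obtain ⟨𝓕, hF1, hF2⟩ := exists_subset_card_eq ht
  have u1 := kk_fam hP univ k (i + 1) 𝓕 ℒ (fun F hF => by
    have := mem_fam.1 (hF1 hF)
    exact mem_fam.2 ⟨subset_univ _, this.2⟩) hL (by omega)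
  have u2 := card_upper (W := seg n (2 * i + 1)) (X := seg n t) (i := i) (s := s) (ℋ := ∂ 𝓕)
    fun H hH => by
      obtain ⟨F, hF, x, hx, rfl⟩ := mem_shadow_iff.1 hH
      obtain ⟨a1, a2, a3⟩ := mem_fam.1 (hF1 hF)
      rw [filter_eq_inter_seg] at a3
      have := card_erase_add_one hx
      refine ⟨(erase_subset _ _).trans a1, by omega, ?_⟩
      rw [erase_inter]
      have := pred_card_le_card_erase (s := F ∩ seg n (2 * i + 1)) (a := x)
      omega
  rw [card_sdiff_of_subset (seg_mono (by omega)), cW, card_seg htn,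
    show t - (2 * i + 1) = N + 1 by omega, Nat.choose_succ_succ, add_mul] at u2
  have e1 : (2 * i + 1).choose (i + 1) = (2 * i + 1).choose i := Nat.choose_symm_half i
  have e2 : 1 ≤ (2 * i + 1).choose i := Nat.choose_pos (by omega)
  have e3 : (2 * i + 1).choose i ≤ 2 ^ (2 * k) :=
    (Nat.choose_le_two_pow _ _).trans (Nat.pow_le_pow_right (by norm_num) (by omega))
  have e4 : 2 ^ (2 * i + 1) ≤ 2 ^ (2 * k) := Nat.pow_le_pow_right (by norm_num) (by omega)
  have e5 : N.choose s ≤ (t + 1) ^ s :=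
    (Nat.choose_le_pow _ _).trans (Nat.pow_le_pow_left (by omega) _)
  rw [e1] at l1
  refine ⟨t, N, by omega, ?_, h2t, ?_⟩
  · have := Nat.mul_le_mul_left (N.choose (s + 1)) e2
    omega
  · have f1 := Nat.mul_le_mul e5 e3
    have f2 := Nat.mul_le_mul_left ((t + 1) ^ s) e4
    rw [pow_succ 2 (2 * k)]
    simp only [Nat.succ_eq_add_one] at u2
    nlinarith

/-- the final numerical contradiction -/
theorem arith (k B C : ℕ) : ∃ U, ∀ s t N p m, s + 1 ≤ k → t ≤ N + 2 * k → N.choose (s + 1) ≤ m →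
    p ^ (s + 1) ≤ k.factorial * (C * (t + 1) ^ s) → m ≤ (p + k) * (C * (t + 1) ^ s) * B →
    t ≤ U := by
  set D := 2 ^ k * k.factorial * C * B with hD
  refine ⟨6 * k + 2 * k * D + (2 * D + 1) ^ k * k.factorial * C, fun s t N p m hs ht h1 h2 h3 => ?_⟩
  by_cases h6 : t ≤ 6 * k
  · omega
  set u := t + 1 with hu
  have hus : 0 < u ^ s := by positivity
  have a1 : (N + 1 - (s + 1)) ^ (s + 1) ≤ k.factorial * m := by
    refine (Nat.pow_sub_le_descFactorial N (s + 1)).trans ?_
    rw [Nat.descFactorial_eq_factorial_mul_choose]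
    exact Nat.mul_le_mul (Nat.factorial_le hs) h1
  have a2 : u ^ (s + 1) ≤ 2 ^ k * (N + 1 - (s + 1)) ^ (s + 1) := by
    refine (Nat.pow_le_pow_left (show u ≤ 2 * (N + 1 - (s + 1)) by omega) _).trans ?_
    rw [mul_pow]
    exact Nat.mul_le_mul_right _ (Nat.pow_le_pow_right (by norm_num) hs)
  have a3 : u ≤ D * (p + k) := by
    refine Nat.le_of_mul_le_mul_left ?_ hus
    calc u ^ s * u = u ^ (s + 1) := (pow_succ _ _).symm
      _ ≤ 2 ^ k * (k.factorial * ((p + k) * (C * u ^ s) * B)) :=
        a2.trans (Nat.mul_le_mul_left _ (a1.trans (Nat.mul_le_mul_left _ h3)))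
      _ = u ^ s * (D * (p + k)) := by rw [hD]; ring
  rcases le_total p k with hp | hp
  · have := Nat.mul_le_mul_left D (show p + k ≤ 2 * k by omega)
    have e : D * (2 * k) = 2 * k * D := by ring
    omega
  · have a4 : u ≤ (2 * D + 1) * p := by
      have := Nat.mul_le_mul_left D (show p + k ≤ 2 * p by omega)
      nlinarith
    have a5 : u ≤ (2 * D + 1) ^ k * k.factorial * C := by
      refine Nat.le_of_mul_le_mul_left ?_ hus
      calc u ^ s * u = u ^ (s + 1) := (pow_succ _ _).symm
        _ ≤ ((2 * D + 1) * p) ^ (s + 1) := Nat.pow_le_pow_left a4 _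
        _ = (2 * D + 1) ^ (s + 1) * p ^ (s + 1) := mul_pow _ _ _
        _ ≤ (2 * D + 1) ^ k * (k.factorial * (C * u ^ s)) :=
          Nat.mul_le_mul (Nat.pow_le_pow_right (by omega) hs) h2
        _ = u ^ s * ((2 * D + 1) ^ k * k.factorial * C) := by ring
    omega

end Pool.Agent.MP_d50107_co.H54
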